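import Pool.Agent.K1H34.HYS.Stm
import Pool.Agent.H238R2.HY.Struct

set_option autoImplicit false

namespace Pool.Agent.K1H11.HYS

open Pool.Agent.K1H34.HYS
open Classical Finset

theorem blk {b a s : ℕ} (hb : 1 ≤ b) (hs : s ≤ b - 1) : (b * a + s) / b = a := by
  rw [Nat.mul_add_div (by omega), Nat.div_eq_of_lt (by omega), Nat.add_zero]

/-- labels of the vertices -/
theorem t_VLAB : S_VLAB := by
  intro V _ G c b M hb hdg hcnt
  -- first phase
  let H : SimpleGraph V :=
    { Adj := fun u v => G.Adj u v ∧ c u = c v ∧ c u < M
      symm := ⟨fun u v h => ⟨h.1.symm, h.2.1.symm, h.2.1 ▸ h.2.2⟩⟩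
      loopless := ⟨fun u h => G.loopless.irrefl u h.1⟩ }
  obtain ⟨s, hs1, hs2⟩ := Pool.Agent.H238R2.HY.greedy H (b - 1) (fun v => by
    by_cases hv : c v < M
    · have h1 : H.degree v ≤ cnt G c v (c v) := by
        rw [← SimpleGraph.card_neighborFinset_eq_degree]
        refine Finset.card_le_card fun u hu => ?_
        rw [SimpleGraph.mem_neighborFinset] at hu
        exact mem_filter.2 ⟨mem_univ _, hu.1, hu.2.1.symm⟩
      have := hcnt v hv
      omega
    · have h1 : H.degree v = 0 := by
        rw [← SimpleGraph.card_neighborFinset_eq_degree, Finset.card_eq_zero]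
        refine Finset.eq_empty_of_forall_notMem fun u hu => ?_
        rw [SimpleGraph.mem_neighborFinset] at hu
        exact hv hu.2.2
      omega)
  have key : ∀ X : Finset V, ∃ x : V → ℕ, (∀ v, x v < b * M) ∧ (∀ v, c v < M → x v / b = c v) ∧
      ∀ u v, (c u < M ∨ u ∈ X) → (c v < M ∨ v ∈ X) → G.Adj u v → x u ≠ x v := by
    intro X
    induction X using Finset.induction_on with
    | empty =>
      have hx : ∀ v, c v < M → (if c v < M then b * c v + s v else 0) / b = c v := by
        intro v hv
        rw [if_pos hv]
        exact blk hb (hs1 v)
      refine ⟨fun v => if c v < M then b * c v + s v else 0, ?_, hx, ?_⟩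
      · intro v
        dsimp only
        split_ifs with hv
        · have h1 := hs1 v
          have h2 : b * (c v + 1) ≤ b * M := Nat.mul_le_mul_left _ hv
          rw [Nat.mul_add, Nat.mul_one] at h2
          omega
        · have := hdg v
          omega
      · intro u v hu hv huv h
        have hu' : c u < M := hu.resolve_right (Finset.notMem_empty _)
        have hv' : c v < M := hv.resolve_right (Finset.notMem_empty _)
        have h1 := hx u hu'
        have h2 := hx v hv'
        dsimp only at h
        rw [h, h2] at h1
        rw [if_pos hu', if_pos hv', h1] at h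
        exact hs2 u v ⟨huv, h1.symm, hu'⟩ (by omega)
    | insert a X ha ih =>
      obtain ⟨x, hx1, hx2, hx3⟩ := ih
      by_cases haM : c a < M
      · refine ⟨x, hx1, hx2, fun u v hu hv => hx3 u v ?_ ?_⟩
        · rcases hu with hu | hu
          · exact Or.inl hu
          · rcases mem_insert.1 hu with rfl | hu
            · exact Or.inl haM
            · exact Or.inr hu
        · rcases hv with hv | hv
          · exact Or.inl hv
          · rcases mem_insert.1 hv with rfl | hv
            · exact Or.inl haM
            · exact Or.inr hv
      · have hcard : ((univ.filter (fun u => G.Adj a u)).image x).card < (range (b * M)).card := by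
          refine lt_of_le_of_lt Finset.card_image_le ?_
          rw [card_range]
          exact hdg a
        obtain ⟨l, hl1, hl2⟩ := Finset.exists_mem_notMem_of_card_lt_card hcard
        rw [mem_range] at hl1
        have hl3 : ∀ u, G.Adj a u → x u ≠ l := fun u hu h =>
          hl2 (mem_image.2 ⟨u, mem_filter.2 ⟨mem_univ _, hu⟩, h⟩)
        refine ⟨Function.update x a l, ?_, ?_, ?_⟩
        · intro v
          by_cases h : v = a
          · subst h; rw [Function.update_self]; exact hl1
          · rw [Function.update_of_ne h]; exact hx1 v
        · intro v hv
          have h : v ≠ a := by rintro rfl; exact haM hv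
          rw [Function.update_of_ne h]; exact hx2 v hv
        · intro u v hu hv huv
          by_cases hua : u = a
          · have hva : v ≠ a := by rintro rfl; exact G.ne_of_adj huv hua
            subst hua
            rw [Function.update_self, Function.update_of_ne hva]
            exact (hl3 v huv).symm
          · by_cases hva : v = a
            · subst hva
              rw [Function.update_self, Function.update_of_ne hua]
              exact hl3 u huv.symm
            · rw [Function.update_of_ne hua, Function.update_of_ne hva]
              refine hx3 u v ?_ ?_ huv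
              · rcases hu with hu | hu
                · exact Or.inl hu
                · exact Or.inr (Finset.mem_of_mem_insert_of_ne hu hua)
              · rcases hv with hv | hv
                · exact Or.inl hv
                · exact Or.inr (Finset.mem_of_mem_insert_of_ne hv hva)
  obtain ⟨x, hx1, hx2, hx3⟩ := key univ
  exact ⟨x, hx1, fun u v => hx3 u v (Or.inr (mem_univ _)) (Or.inr (mem_univ _)), hx2⟩

end Pool.Agent.K1H11.HYS
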